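import Pool.Agent.H27.TM.TargetsG
import Pool.Agent.H29.THC.DFV
import Pool.Agent.H31.SW.TargetsG

/-!
# (DV) the divisor bound
-/

set_option autoImplicit false

open NumberField NumberField.InfinitePlace Set
open scoped nonZeroDivisors

namespace Pool.Agent.H70.TMB.DV

open Pool.Agent.H25.HK Pool.Agent.H23.LB Pool.Agent.H29.TC
open Pool.Agent.H28.RC (idl)
open Pool.Agent.H29.DW (dg Rl lf wv Pos)
open Pool.Agent.H31.SW (DD PP dK)
open Pool.Agent.H27.TM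

section

variable {K : Type} [Field K] [NumberField K]

theorem idl_mul {L : FI K} (hL : L ≠ 0) {x : K} (hx : x ∈ L) :
    (idl K L x : FI K) * L = FractionalIdeal.spanSingleton (𝓞 K)⁰ x := by
  have h : ∃ I : Ideal (𝓞 K), (I : FI K) * L = FractionalIdeal.spanSingleton (𝓞 K)⁰ x := by
    have h1 : FractionalIdeal.spanSingleton (𝓞 K)⁰ x ≤ L :=
      (FractionalIdeal.spanSingleton_le_iff_mem).2 hx
    have h2 : FractionalIdeal.spanSingleton (𝓞 K)⁰ x * L⁻¹ ≤ 1 := by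
      calc FractionalIdeal.spanSingleton (𝓞 K)⁰ x * L⁻¹ ≤ L * L⁻¹ := mul_le_mul_left h1 _
        _ = 1 := mul_inv_cancel₀ hL
    obtain ⟨e₀, he₀⟩ := FractionalIdeal.le_one_iff_exists_coeIdeal.1 h2
    exact ⟨e₀, by rw [he₀, mul_assoc, inv_mul_cancel₀ hL, mul_one]⟩
  unfold idl
  rw [dif_pos h]
  exact h.choose_spec

theorem idl_eq {L : FI K} (hL : L ≠ 0) {x : K} (hx : x ∈ L) :
    (idl K L x : FI K) = FractionalIdeal.spanSingleton (𝓞 K)⁰ x * L⁻¹ := by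
  rw [← idl_mul hL hx, mul_assoc, mul_inv_cancel₀ hL, mul_one]

/-- the divisibility -/
theorem idl_le (hDU : Pool.Agent.H25.HK.T_DU) {L : FI K} (hL : L ≠ 0)
    (hN : NN K ≠ 0) (hT : ((Ideal.span {(2 : 𝓞 K)} : Ideal (𝓞 K)) : FI K) ≠ 0)
    {ν δ : K} (hν : ν ∈ NN K) (hδ : δ ≠ 0) (h2 : 2 * δ ∈ L) (hx : ν / δ ∈ du K L) :
    idl K (NN K) ν ≤ idl K L (2 * δ) := by
  have h1 : (FractionalIdeal.spanSingleton (𝓞 K)⁰ (ν / δ) : FI K) ≤ L⁻¹ * du K 1 := by
    rw [← (hDU K L hL).2.2.1]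
    exact (FractionalIdeal.spanSingleton_le_iff_mem).2 hx
  have hD : (du K 1 : FI K) ≠ 0 := (hDU K 1 one_ne_zero).1
  have h3 : NN K = ((Ideal.span {(2 : 𝓞 K)} : Ideal (𝓞 K)) : FI K)⁻¹ * du K 1 :=
    (hDU K _ hT).2.2.1
  have h4 : (FractionalIdeal.spanSingleton (𝓞 K)⁰ (2 * δ) : FI K) =
      ((Ideal.span {(2 : 𝓞 K)} : Ideal (𝓞 K)) : FI K) *
        FractionalIdeal.spanSingleton (𝓞 K)⁰ δ := by
    rw [FractionalIdeal.coeIdeal_span_singleton, FractionalIdeal.spanSingleton_mul_spanSingleton]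
    congr 1
  have h5 : (FractionalIdeal.spanSingleton (𝓞 K)⁰ ν : FI K) =
      FractionalIdeal.spanSingleton (𝓞 K)⁰ (ν / δ) *
        FractionalIdeal.spanSingleton (𝓞 K)⁰ δ := by
    rw [FractionalIdeal.spanSingleton_mul_spanSingleton, div_mul_cancel₀ _ hδ]
  rw [← FractionalIdeal.coeIdeal_le_coeIdeal K, idl_eq hN hν, idl_eq hL h2, h5, h4, h3]
  calc FractionalIdeal.spanSingleton (𝓞 K)⁰ (ν / δ) *
        FractionalIdeal.spanSingleton (𝓞 K)⁰ δ *
        (((Ideal.span {(2 : 𝓞 K)} : Ideal (𝓞 K)) : FI K)⁻¹ * du K 1)⁻¹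
      ≤ L⁻¹ * du K 1 * FractionalIdeal.spanSingleton (𝓞 K)⁰ δ *
        (((Ideal.span {(2 : 𝓞 K)} : Ideal (𝓞 K)) : FI K)⁻¹ * du K 1)⁻¹ :=
        mul_le_mul_left (mul_le_mul_left h1 _) _
    _ = ((Ideal.span {(2 : 𝓞 K)} : Ideal (𝓞 K)) : FI K) *
        FractionalIdeal.spanSingleton (𝓞 K)⁰ δ * L⁻¹ := by
        rw [mul_inv, inv_inv]
        have h6 : (du K 1 : FI K) * (du K 1)⁻¹ = 1 := mul_inv_cancel₀ hD
        calc L⁻¹ * du K 1 * FractionalIdeal.spanSingleton (𝓞 K)⁰ δ *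
              (((Ideal.span {(2 : 𝓞 K)} : Ideal (𝓞 K)) : FI K) * (du K 1)⁻¹)
            = ((Ideal.span {(2 : 𝓞 K)} : Ideal (𝓞 K)) : FI K) *
              FractionalIdeal.spanSingleton (𝓞 K)⁰ δ * L⁻¹ * (du K 1 * (du K 1)⁻¹) := by ring
          _ = _ := by rw [h6, mul_one]

/-- the norm of the ideal of `ν` -/
theorem nf_idl (hNL : M_NL) {ν : K} (hν : ν ∈ NN K) :
    Nf K (idl K (NN K) ν) = 2 ^ Module.finrank ℚ K *
      (dK K * ∏ v : InfinitePlace K, ‖v.embedding ν‖ ^ v.mult) := by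
  obtain ⟨hN, hT, hD, -, -⟩ := hNL K
  have h1 := congrArg FractionalIdeal.absNorm (idl_mul hN hν)
  rw [map_mul, FractionalIdeal.coeIdeal_absNorm, FractionalIdeal.absNorm_span_singleton] at h1
  have h2 : (Ideal.absNorm (idl K (NN K) ν) : ℝ) * (FractionalIdeal.absNorm (NN K) : ℝ) =
      |((Algebra.norm ℚ ν : ℚ) : ℝ)| := by
    exact_mod_cast h1
  have h3 := hD 0
  unfold DD at h3
  simp only [Pi.zero_apply, mul_zero, Finset.sum_const_zero, neg_zero, zero_div, Real.exp_zero,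
    one_mul] at h3
  have h4 : (FractionalIdeal.absNorm (NN K) : ℝ) ≠ 0 := by
    have : FractionalIdeal.absNorm (NN K) ≠ 0 := by
      rw [Ne, FractionalIdeal.absNorm_eq_zero_iff]
      exact hN
    exact_mod_cast this
  have h5 : ∏ v : InfinitePlace K, ‖v.embedding ν‖ ^ v.mult = |((Algebra.norm ℚ ν : ℚ) : ℝ)| := by
    rw [← Rat.cast_abs, ← InfinitePlace.prod_eq_abs_norm]
    refine Finset.prod_congr rfl fun v _ => ?_
    rw [InfinitePlace.norm_embedding_eq]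
  rw [h5, ← h2]
  unfold Nf
  have h6 : (2 : ℝ) ^ Module.finrank ℚ K * dK K * (FractionalIdeal.absNorm (NN K) : ℝ) = 1 := by
    rw [← h3]
    field_simp
  calc (Ideal.absNorm (idl K (NN K) ν) : ℝ) = (Ideal.absNorm (idl K (NN K) ν) : ℝ) *
        (2 ^ Module.finrank ℚ K * dK K * (FractionalIdeal.absNorm (NN K) : ℝ)) := by
        rw [h6, mul_one]
    _ = _ := by ring

/-- the small algebraic integers -/
def US (K : Type) [Field K] [NumberField K] : Set K :=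
  {x : K | x ∈ (1 : FI K) ∧ ∀ v : InfinitePlace K, ‖wv v x 0 (fun _ => 1) - 0‖ ≤ 2}

theorem quot_mem {L : FI K} (hL : L ≠ 0) {y : InfinitePlace K → ℝ} {ω : InfinitePlace K → ℂ}
    {α : InfinitePlace K → ℝ} (hω : Pos ω) (hα : ∀ v, 0 < α v) {δ δ₀ : K}
    (h : δ ∈ Dl L y ω α) (h₀ : δ₀ ∈ Dl L y ω α) (he : idl K L (2 * δ) = idl K L (2 * δ₀)) :
    δ / δ₀ ∈ US K := by
  have hw : ∀ (v : InfinitePlace K) (x : K),
      ‖wv v x y ω‖ = ‖v.embedding x‖ * Real.exp (y v / 2) := by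
    intro v x
    unfold wv
    rw [norm_mul, norm_mul, hω.one v, mul_one, Complex.norm_real, Real.norm_eq_abs, Real.abs_exp]
  have hne : δ₀ ≠ 0 := by
    obtain ⟨v⟩ := (inferInstance : Nonempty (InfinitePlace K))
    rintro rfl
    have h1 := (h₀.2 v).1
    rw [hw, map_zero, norm_zero, zero_mul] at h1
    exact absurd h1 (not_le.2 (hα v))
  constructor
  · have h1 : (FractionalIdeal.spanSingleton (𝓞 K)⁰ (2 * δ) : FI K) =
        FractionalIdeal.spanSingleton (𝓞 K)⁰ (2 * δ₀) := by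
      rw [← idl_mul hL h.1, ← idl_mul hL h₀.1, he]
    have h2 : 2 * δ ∈ (FractionalIdeal.spanSingleton (𝓞 K)⁰ (2 * δ₀) : FI K) := by
      rw [← h1]
      exact FractionalIdeal.mem_spanSingleton_self _ _
    obtain ⟨z, hz⟩ := (FractionalIdeal.mem_spanSingleton _).1 h2
    rw [FractionalIdeal.mem_one_iff]
    refine ⟨z, ?_⟩
    rw [Algebra.smul_def] at hz
    rw [eq_div_iff hne]
    have h3 : (2 : K) ≠ 0 := two_ne_zero
    have h4 : 2 * ((algebraMap (𝓞 K) K) z * δ₀) = 2 * δ := by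
      rw [← hz]
      ring
    exact mul_left_cancel₀ h3 h4
  · intro v
    have h1 := (h₀.2 v).1
    have h2 := (h.2 v).2
    rw [hw] at h1 h2
    have h3 := Real.exp_pos (y v / 2)
    have h4 : 0 < ‖v.embedding δ₀‖ := by
      rw [norm_pos_iff]
      exact (map_ne_zero _).2 hne
    unfold wv
    simp only [Pi.zero_apply, zero_div, Real.exp_zero, Complex.ofReal_one, mul_one, sub_zero]
    rw [map_div₀, norm_div, div_le_iff₀ h4]
    have h5 : ‖v.embedding δ‖ * Real.exp (y v / 2) < (2 * ‖v.embedding δ₀‖) * Real.exp (y v / 2) := by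
      calc ‖v.embedding δ‖ * Real.exp (y v / 2) < 2 * α v := h2
        _ ≤ 2 * (‖v.embedding δ₀‖ * Real.exp (y v / 2)) := by linarith
        _ = _ := by ring
    exact (lt_of_mul_lt_mul_right h5 h3.le).le

theorem DD_one : DD (1 : FI K) 0 = 1 := by
  unfold DD
  simp

end

theorem pf_DV (hCU : Pool.Agent.H31.SW.W_CU) (hDT : Pool.Agent.H29.TC.T_DV)
    (hDU : Pool.Agent.H25.HK.T_DU) (hNL : M_NL) : M_DV := by
  classical
  intro n hn ε hε
  obtain ⟨C₁, hC₁⟩ := hDT n ε hε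
  obtain ⟨C₂, hC₂, hCU'⟩ := hCU n hn
  refine ⟨max 1 (C₂ * (1 + 2 ^ n) * (|C₁| * ((2 : ℝ) ^ n) ^ ε)), le_max_left _ _, ?_⟩
  intro K _ _ hK L y ω α ν hL hω hα hν hν0
  have hd : 0 ≤ dK K := abs_nonneg _
  have hP : 0 ≤ dK K * ∏ v : InfinitePlace K, ‖v.embedding ν‖ ^ v.mult :=
    mul_nonneg hd (Finset.prod_nonneg fun v _ => pow_nonneg (norm_nonneg _) _)
  set P := dK K * ∏ v : InfinitePlace K, ‖v.embedding ν‖ ^ v.mult with hPdef
  have hP' : 0 ≤ P ^ ε := Real.rpow_nonneg hP _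
  obtain ⟨hN, hT, -, -, -⟩ := hNL K
  -- the small integers
  obtain ⟨hUf, hUc⟩ := hCU' K hK 1 0 (fun _ => 1) (fun _ => 0) (fun _ => 2) one_ne_zero
    ⟨fun v => by simp, fun v _ => by simp⟩ (fun v => by norm_num)
  have hPP : PP (fun _ : InfinitePlace K => (2 : ℝ)) = 2 ^ n := by
    unfold PP
    rw [Finset.prod_pow_eq_pow_sum, InfinitePlace.sum_mult_eq, hK]
  have hU1 : (US K).Finite := hUf
  have hU2 : ((US K).ncard : ℝ) ≤ C₂ * (1 + 2 ^ n) := by
    have h1 : ((US K).ncard : ℝ) ≤ C₂ * (1 + DD (1 : FI K) 0 *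
        PP (fun _ : InfinitePlace K => (2 : ℝ))) := hUc
    rwa [DD_one, hPP, one_mul] at h1
  unfold dv
  set S : Set K := {δ | δ ∈ Dl L y ω α ∧ ν / δ ∈ du K L} with hS
  have hδ0 : ∀ δ ∈ Dl L y ω α, δ ≠ 0 := by
    intro δ hδ h0
    obtain ⟨v⟩ := (inferInstance : Nonempty (InfinitePlace K))
    have h1 := (hδ.2 v).1
    rw [h0] at h1
    unfold wv at h1
    rw [map_zero, zero_mul, zero_mul, norm_zero] at h1
    exact absurd h1 (not_le.2 (hα v))
  have hIne : idl K (NN K) ν ≠ ⊥ := by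
    intro h0
    have h1 := idl_mul hN hν
    rw [h0, FractionalIdeal.coeIdeal_bot, zero_mul] at h1
    exact hν0 (FractionalIdeal.spanSingleton_eq_zero_iff.1 h1.symm)
  by_cases hfin : S.Finite
  · have h1 : hfin.toFinset.card ≤ (US K).ncard *
        (hfin.toFinset.image (fun δ => idl K L (2 * δ))).card := by
      refine Finset.card_le_mul_card_image _ _ ?_
      intro I hI
      obtain ⟨δ₀, hδ₀, hI₀⟩ := Finset.mem_image.1 hI
      rw [Set.Finite.mem_toFinset] at hδ₀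
      rw [← Set.ncard_coe_finset]
      refine Set.ncard_le_ncard_of_injOn (fun δ => δ / δ₀) ?_ ?_ hU1
      · intro δ hδ
        rw [Finset.mem_coe, Finset.mem_filter, Set.Finite.mem_toFinset] at hδ
        exact quot_mem hL hω hα hδ.1.1 hδ₀.1 (hδ.2.trans hI₀.symm)
      · intro δ _ δ' _ h
        have h0 := hδ0 _ hδ₀.1
        exact (div_left_inj' h0).1 h
    have h2 : (hfin.toFinset.image (fun δ => idl K L (2 * δ))).card ≤
        (dvs K (idl K (NN K) ν)).card := by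
      refine Finset.card_le_card fun I hI => ?_
      obtain ⟨δ, hδ, rfl⟩ := Finset.mem_image.1 hI
      rw [Set.Finite.mem_toFinset] at hδ
      rw [Pool.Agent.H29.THC.pf_DF K _ hIne]
      exact idl_le hDU hL hN hT hν (hδ0 _ hδ.1) hδ.1.1 hδ.2
    have h3 : ((dvs K (idl K (NN K) ν)).card : ℝ) ≤ |C₁| * (((2 : ℝ) ^ n) ^ ε * P ^ ε) := by
      refine (hC₁ K hK _ hIne).trans ?_
      rw [nf_idl hNL hν, hK, ← hPdef, Real.mul_rpow (by positivity) hP]
      exact mul_le_mul_of_nonneg_right (le_abs_self _) (by positivity)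
    have h4 : S.ncard = hfin.toFinset.card := Set.ncard_eq_toFinset_card S hfin
    rw [h4]
    calc (hfin.toFinset.card : ℝ) ≤ ((US K).ncard : ℝ) *
          ((hfin.toFinset.image (fun δ => idl K L (2 * δ))).card : ℝ) := by exact_mod_cast h1
      _ ≤ (C₂ * (1 + 2 ^ n)) * (|C₁| * (((2 : ℝ) ^ n) ^ ε * P ^ ε)) := by
          refine mul_le_mul hU2 (le_trans (by exact_mod_cast h2) h3) (Nat.cast_nonneg _) ?_
          positivity
      _ = (C₂ * (1 + 2 ^ n) * (|C₁| * ((2 : ℝ) ^ n) ^ ε)) * P ^ ε := by ring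
      _ ≤ _ := mul_le_mul_of_nonneg_right (le_max_right _ _) hP'
  · rw [Set.Infinite.ncard hfin]
    have h5 : (0 : ℝ) ≤ max 1 (C₂ * (1 + 2 ^ n) * (|C₁| * ((2 : ℝ) ^ n) ^ ε)) :=
      zero_le_one.trans (le_max_left _ _)
    rw [Nat.cast_zero]
    exact mul_nonneg h5 hP'

end Pool.Agent.H70.TMB.DV
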